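import Mathlib

set_option autoImplicit false

open Filter Topology Set

namespace Pool.Agent.Results.MP_28d764_an.OpenSetNonPeriodic

/-- The right-hand side of the recurrence in logarithmic coordinates:
parameters `exp a, exp g, exp d, exp c, exp e`, arguments `exp U, exp V, exp W`. -/
noncomputable def G (a g d c e U V W : ℝ) : ℝ :=
  Real.log (Real.exp a + Real.exp U + Real.exp (g + V) + Real.exp (d + W))
    - Real.log (Real.exp U + Real.exp (c + V) + Real.exp (e + W))

lemma num_pos (a g d U V W : ℝ) :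
    0 < Real.exp a + Real.exp U + Real.exp (g + V) + Real.exp (d + W) := by positivity

lemma den_pos (c e U V W : ℝ) :
    0 < Real.exp U + Real.exp (c + V) + Real.exp (e + W) := by positivity

lemma log_num_le {a g d U V W M : ℝ} (h1 : a ≤ M) (h2 : U ≤ M) (h3 : g + V ≤ M)
    (h4 : d + W ≤ M) :
    Real.log (Real.exp a + Real.exp U + Real.exp (g + V) + Real.exp (d + W)) ≤ M + 2 := by
  rw [Real.log_le_iff_le_exp (num_pos _ _ _ _ _ _)]
  have e1 := Real.exp_le_exp.mpr h1
  have e2 := Real.exp_le_exp.mpr h2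
  have e3 := Real.exp_le_exp.mpr h3
  have e4 := Real.exp_le_exp.mpr h4
  have h5 : (4 : ℝ) ≤ Real.exp 2 := by
    have : Real.exp 2 = Real.exp 1 * Real.exp 1 := by rw [← Real.exp_add]; norm_num
    have h := Real.exp_one_gt_d9
    nlinarith
  have h6 : Real.exp (M + 2) = Real.exp M * Real.exp 2 := Real.exp_add _ _
  have h7 : 0 < Real.exp M := Real.exp_pos _
  nlinarith

lemma log_den_le {c e U V W K : ℝ} (h1 : U ≤ K) (h2 : c + V ≤ K) (h3 : e + W ≤ K) :
    Real.log (Real.exp U + Real.exp (c + V) + Real.exp (e + W)) ≤ K + 2 := by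
  rw [Real.log_le_iff_le_exp (den_pos _ _ _ _ _)]
  have e1 := Real.exp_le_exp.mpr h1
  have e2 := Real.exp_le_exp.mpr h2
  have e3 := Real.exp_le_exp.mpr h3
  have h5 : (4 : ℝ) ≤ Real.exp 2 := by
    have : Real.exp 2 = Real.exp 1 * Real.exp 1 := by rw [← Real.exp_add]; norm_num
    have h := Real.exp_one_gt_d9
    nlinarith
  have h6 : Real.exp (K + 2) = Real.exp K * Real.exp 2 := Real.exp_add _ _
  have h7 : 0 < Real.exp K := Real.exp_pos _
  nlinarith

lemma le_log_num_U (a g d U V W : ℝ) :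
    U ≤ Real.log (Real.exp a + Real.exp U + Real.exp (g + V) + Real.exp (d + W)) := by
  rw [Real.le_log_iff_exp_le (num_pos _ _ _ _ _ _)]
  have := Real.exp_pos a; have := Real.exp_pos (g + V); have := Real.exp_pos (d + W)
  linarith

lemma le_log_num_V (a g d U V W : ℝ) :
    g + V ≤ Real.log (Real.exp a + Real.exp U + Real.exp (g + V) + Real.exp (d + W)) := by
  rw [Real.le_log_iff_exp_le (num_pos _ _ _ _ _ _)]
  have := Real.exp_pos a; have := Real.exp_pos U; have := Real.exp_pos (d + W)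
  linarith

lemma le_log_num_W (a g d U V W : ℝ) :
    d + W ≤ Real.log (Real.exp a + Real.exp U + Real.exp (g + V) + Real.exp (d + W)) := by
  rw [Real.le_log_iff_exp_le (num_pos _ _ _ _ _ _)]
  have := Real.exp_pos a; have := Real.exp_pos U; have := Real.exp_pos (g + V)
  linarith

lemma le_log_den_U (c e U V W : ℝ) :
    U ≤ Real.log (Real.exp U + Real.exp (c + V) + Real.exp (e + W)) := by
  rw [Real.le_log_iff_exp_le (den_pos _ _ _ _ _)]
  have := Real.exp_pos (c + V); have := Real.exp_pos (e + W)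
  linarith

lemma le_log_den_V (c e U V W : ℝ) :
    c + V ≤ Real.log (Real.exp U + Real.exp (c + V) + Real.exp (e + W)) := by
  rw [Real.le_log_iff_exp_le (den_pos _ _ _ _ _)]
  have := Real.exp_pos U; have := Real.exp_pos (e + W)
  linarith

/-- upper bound for `G` when all numerator exponents are at most `M` (denominator term `U`) -/
lemma G_le_U {a g d c e U V W M : ℝ} (h1 : a ≤ M) (h2 : U ≤ M) (h3 : g + V ≤ M)
    (h4 : d + W ≤ M) : G a g d c e U V W ≤ M + 2 - U := by
  have := log_num_le h1 h2 h3 h4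
  have := le_log_den_U c e U V W
  unfold G; linarith

lemma G_le_V {a g d c e U V W M : ℝ} (h1 : a ≤ M) (h2 : U ≤ M) (h3 : g + V ≤ M)
    (h4 : d + W ≤ M) : G a g d c e U V W ≤ M + 2 - (c + V) := by
  have := log_num_le h1 h2 h3 h4
  have := le_log_den_V c e U V W
  unfold G; linarith

lemma U_le_G {a g d c e U V W K : ℝ} (h1 : U ≤ K) (h2 : c + V ≤ K) (h3 : e + W ≤ K) :
    U - (K + 2) ≤ G a g d c e U V W := by
  have := log_den_le h1 h2 h3
  have := le_log_num_U a g d U V W
  unfold G; linarith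

lemma V_le_G {a g d c e U V W K : ℝ} (h1 : U ≤ K) (h2 : c + V ≤ K) (h3 : e + W ≤ K) :
    g + V - (K + 2) ≤ G a g d c e U V W := by
  have := log_den_le h1 h2 h3
  have := le_log_num_V a g d U V W
  unfold G; linarith

lemma W_le_G {a g d c e U V W K : ℝ} (h1 : U ≤ K) (h2 : c + V ≤ K) (h3 : e + W ≤ K) :
    d + W - (K + 2) ≤ G a g d c e U V W := by
  have := log_den_le h1 h2 h3
  have := le_log_num_W a g d U V W
  unfold G; linarith

/-- the state `(U_n, V_n, W_n)` of the orbit starting at `(0, z, 40000)`. -/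
noncomputable def st (a g d c e z : ℝ) : ℕ → ℝ × ℝ × ℝ
  | 0 => (0, z, 40000)
  | n + 1 => (G a g d c e (st a g d c e z n).1 (st a g d c e z n).2.1 (st a g d c e z n).2.2,
      (st a g d c e z n).1, (st a g d c e z n).2.1)

/-- parameters are admissible -/
def Adm (a g d c e : ℝ) : Prop :=
  |a| < 1 ∧ |g| < 1 ∧ |d - 30000| < 1 ∧ |c + 40000| < 1 ∧ |e + 50000| < 1

lemma continuous_st (a g d c e : ℝ) (n : ℕ) :
    Continuous fun z => st a g d c e z n := by
  induction n with
  | zero => simp only [st]; fun_prop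
  | succ n ih =>
    simp only [st, G]
    have h1 : Continuous fun z => (st a g d c e z n).1 := ih.fst
    have h2 : Continuous fun z => (st a g d c e z n).2.1 := ih.snd.fst
    have h3 : Continuous fun z => (st a g d c e z n).2.2 := ih.snd.snd
    refine Continuous.prodMk (Continuous.sub (Continuous.log ?_ ?_) (Continuous.log ?_ ?_))
      (Continuous.prodMk h1 h2)
    · fun_prop
    · intro z; exact (num_pos _ _ _ _ _ _).ne'
    · fun_prop
    · intro z; exact (den_pos _ _ _ _ _).ne'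

/-- the common part of the two block estimates: eight steps of the map, abstractly. -/
lemma block_B {a g d c e U V W X1 X2 X3 X4 X5 X6 X7 X8 : ℝ} (hA : Adm a g d c e)
    (hU : |U| ≤ 2) (hW : |W - 40000| ≤ 4) (hV1 : 59500 ≤ V) (hV2 : V ≤ 61900)
    (h1 : X1 = G a g d c e U V W) (h2 : X2 = G a g d c e X1 U V)
    (h3 : X3 = G a g d c e X2 X1 U) (h4 : X4 = G a g d c e X3 X2 X1)
    (h5 : X5 = G a g d c e X4 X3 X2) (h6 : X6 = G a g d c e X5 X4 X3)
    (h7 : X7 = G a g d c e X6 X5 X4) (h8 : X8 = G a g d c e X7 X6 X5) :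
    |X8| ≤ 2 ∧ |X6 - 40000| ≤ 4 ∧ |X7 - (2 * V - 60000)| ≤ 100 := by
  obtain ⟨ha, hg, hd, hc, he⟩ := hA
  rw [abs_lt] at ha hg hd hc he
  rw [abs_le] at hU hW
  -- step 1: W / V
  have u1 : X1 ≤ (d + W) + 2 - (c + V) := by
    rw [h1]; apply G_le_V <;> linarith
  have l1 : d + W - ((c + V) + 2) ≤ X1 := by
    rw [h1]; apply W_le_G <;> linarith
  -- step 2: W / U
  have u2 : X2 ≤ (d + V) + 2 - X1 := by
    rw [h2]; apply G_le_U <;> linarith
  have l2 : d + V - (X1 + 2) ≤ X2 := by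
    rw [h2]; apply W_le_G <;> linarith
  -- step 3: V / U
  have u3 : X3 ≤ (g + X1) + 2 - X2 := by
    rw [h3]; apply G_le_U <;> linarith
  have l3 : g + X1 - (X2 + 2) ≤ X3 := by
    rw [h3]; apply V_le_G <;> linarith
  -- step 4: W / U
  have u4 : X4 ≤ (d + X1) + 2 - X3 := by
    rw [h4]; apply G_le_U <;> linarith
  have l4 : d + X1 - (X3 + 2) ≤ X4 := by
    rw [h4]; apply W_le_G <;> linarith
  -- step 5: (U or W) / U
  have u5 : X5 ≤ (X4 + 30) + 2 - X4 := by
    rw [h5]; apply G_le_U <;> linarith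
  have l5 : X4 - (X4 + 2) ≤ X5 := by
    rw [h5]; apply U_le_G <;> linarith
  -- step 6: V / V
  have u6 : X6 ≤ (g + X4) + 2 - (c + X4) := by
    rw [h6]; apply G_le_V <;> linarith
  have l6 : g + X4 - ((c + X4) + 2) ≤ X6 := by
    rw [h6]; apply V_le_G <;> linarith
  -- step 7: W / U
  have u7 : X7 ≤ (d + X4) + 2 - X6 := by
    rw [h7]; apply G_le_U <;> linarith
  have l7 : d + X4 - (X6 + 2) ≤ X7 := by
    rw [h7]; apply W_le_G <;> linarith
  -- step 8: U / U
  have u8 : X8 ≤ X7 + 2 - X7 := by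
    rw [h8]; apply G_le_U <;> linarith
  have l8 : X7 - (X7 + 2) ≤ X8 := by
    rw [h8]; apply U_le_G <;> linarith
  refine ⟨abs_le.mpr ⟨by linarith, by linarith⟩, abs_le.mpr ⟨by linarith, by linarith⟩,
    abs_le.mpr ⟨by linarith, by linarith⟩⟩

lemma block_A {a g d c e U V W X1 X2 X3 X4 X5 X6 X7 X8 : ℝ} (hA : Adm a g d c e)
    (hU : |U| ≤ 2) (hW : |W - 40000| ≤ 4) (hV1 : 62050 ≤ V) (hV2 : V ≤ 63600)
    (h1 : X1 = G a g d c e U V W) (h2 : X2 = G a g d c e X1 U V)
    (h3 : X3 = G a g d c e X2 X1 U) (h4 : X4 = G a g d c e X3 X2 X1)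
    (h5 : X5 = G a g d c e X4 X3 X2) (h6 : X6 = G a g d c e X5 X4 X3)
    (h7 : X7 = G a g d c e X6 X5 X4) (h8 : X8 = G a g d c e X7 X6 X5) :
    |X8| ≤ 2 ∧ |X6 - 40000| ≤ 4 ∧ |X7 - (250000 - 3 * V)| ≤ 100 := by
  obtain ⟨ha, hg, hd, hc, he⟩ := hA
  rw [abs_lt] at ha hg hd hc he
  rw [abs_le] at hU hW
  have u1 : X1 ≤ (d + W) + 2 - (c + V) := by
    rw [h1]; apply G_le_V <;> linarith
  have l1 : d + W - ((c + V) + 2) ≤ X1 := by
    rw [h1]; apply W_le_G <;> linarith
  have u2 : X2 ≤ (d + V) + 2 - X1 := by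
    rw [h2]; apply G_le_U <;> linarith
  have l2 : d + V - (X1 + 2) ≤ X2 := by
    rw [h2]; apply W_le_G <;> linarith
  -- step 3: numerator at most X2 + 3900, lower bound from U / U
  have u3 : X3 ≤ (X2 + 3900) + 2 - X2 := by
    rw [h3]; apply G_le_U <;> linarith
  have l3 : X2 - (X2 + 2) ≤ X3 := by
    rw [h3]; apply U_le_G <;> linarith
  -- step 4: W / V
  have u4 : X4 ≤ (d + X1) + 2 - (c + X2) := by
    rw [h4]; apply G_le_V <;> linarith
  have l4 : d + X1 - ((c + X2) + 2) ≤ X4 := by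
    rw [h4]; apply W_le_G <;> linarith
  -- step 5: W / U
  have u5 : X5 ≤ (d + X2) + 2 - X4 := by
    rw [h5]; apply G_le_U <;> linarith
  have l5 : X4 - (X4 + 2) ≤ X5 := by
    rw [h5]; apply U_le_G <;> linarith
  -- step 6: V / V
  have u6 : X6 ≤ (g + X4) + 2 - (c + X4) := by
    rw [h6]; apply G_le_V <;> linarith
  have l6 : g + X4 - ((c + X4) + 2) ≤ X6 := by
    rw [h6]; apply V_le_G <;> linarith
  -- step 7: W / U
  have u7 : X7 ≤ (d + X4) + 2 - X6 := by
    rw [h7]; apply G_le_U <;> linarith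
  have l7 : d + X4 - (X6 + 2) ≤ X7 := by
    rw [h7]; apply W_le_G <;> linarith
  -- step 8: U / U
  have u8 : X8 ≤ X7 + 2 - X7 := by
    rw [h8]; apply G_le_U <;> linarith
  have l8 : X7 - (X7 + 2) ≤ X8 := by
    rw [h8]; apply U_le_G <;> linarith
  refine ⟨abs_le.mpr ⟨by linarith, by linarith⟩, abs_le.mpr ⟨by linarith, by linarith⟩,
    abs_le.mpr ⟨by linarith, by linarith⟩⟩


/-- a continuous function that crosses `[lo, hi]` between `l` and `r` has a sub-interval on which it
stays in `[lo, hi]` and takes the two end values at the two ends (increasing case). -/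
lemma sub_cross_aux {f : ℝ → ℝ} {l r lo hi : ℝ} (hlr : l ≤ r) (hf : Continuous f)
    (hlh : lo < hi) (h1 : f l ≤ lo) (h2 : hi ≤ f r) :
    ∃ l' r', l' ≤ r' ∧ Icc l' r' ⊆ Icc l r ∧
      (∀ z ∈ Icc l' r', lo ≤ f z ∧ f z ≤ hi) ∧ f l' = lo ∧ f r' = hi := by
  have hS : IsCompact (Icc l r ∩ f ⁻¹' (Ici hi)) :=
    isCompact_Icc.inter_right (isClosed_Ici.preimage hf)
  obtain ⟨r', ⟨hr'1, hr'2⟩, hr'3⟩ := hS.exists_isLeast ⟨r, ⟨hlr, le_rfl⟩, h2⟩
  have hr'2 : hi ≤ f r' := hr'2
  have hfr : f r' = hi := by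
    obtain ⟨c, hc, hc2⟩ := intermediate_value_Icc hr'1.1 hf.continuousOn
      (show hi ∈ Icc (f l) (f r') from ⟨by linarith, hr'2⟩)
    have : r' ≤ c := hr'3 ⟨⟨hc.1, hc.2.trans hr'1.2⟩, hc2.ge⟩
    have : c = r' := le_antisymm hc.2 this
    rw [← this]; exact hc2
  have hS2 : IsCompact (Icc l r' ∩ f ⁻¹' (Iic lo)) :=
    isCompact_Icc.inter_right (isClosed_Iic.preimage hf)
  obtain ⟨l', ⟨hl'1, hl'2⟩, hl'3⟩ := hS2.exists_isGreatest ⟨l, ⟨le_rfl, hr'1.1⟩, h1⟩
  have hl'2 : f l' ≤ lo := hl'2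
  have hfl : f l' = lo := by
    obtain ⟨c, hc, hc2⟩ := intermediate_value_Icc hl'1.2 hf.continuousOn
      (show lo ∈ Icc (f l') (f r') from ⟨hl'2, by rw [hfr]; exact hlh.le⟩)
    have : c ≤ l' := hl'3 ⟨⟨hl'1.1.trans hc.1, hc.2⟩, hc2.le⟩
    have : c = l' := le_antisymm this hc.1
    rw [← this]; exact hc2
  refine ⟨l', r', hl'1.2, Icc_subset_Icc hl'1.1 hr'1.2, ?_, hfl, hfr⟩
  intro z hz
  constructor
  · by_contra hcon
    push Not at hcon
    have : z ≤ l' := hl'3 ⟨⟨hl'1.1.trans hz.1, hz.2⟩, hcon.le⟩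
    have : z = l' := le_antisymm this hz.1
    rw [this, hfl] at hcon
    exact lt_irrefl _ hcon
  · by_contra hcon
    push Not at hcon
    have : r' ≤ z := hr'3 ⟨⟨hl'1.1.trans hz.1, hz.2.trans hr'1.2⟩, hcon.le⟩
    have : z = r' := le_antisymm hz.2 this
    rw [this, hfr] at hcon
    exact lt_irrefl _ hcon

lemma sub_cross {f : ℝ → ℝ} {l r lo hi : ℝ} (hlr : l ≤ r) (hf : Continuous f)
    (hlh : lo < hi) (h : (f l ≤ lo ∧ hi ≤ f r) ∨ (hi ≤ f l ∧ f r ≤ lo)) :
    ∃ l' r', l' ≤ r' ∧ Icc l' r' ⊆ Icc l r ∧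
      (∀ z ∈ Icc l' r', lo ≤ f z ∧ f z ≤ hi) ∧
      ((f l' = lo ∧ f r' = hi) ∨ (f l' = hi ∧ f r' = lo)) := by
  rcases h with h | h
  · obtain ⟨l', r', h1, h2, h3, h4, h5⟩ := sub_cross_aux hlr hf hlh h.1 h.2
    exact ⟨l', r', h1, h2, h3, Or.inl ⟨h4, h5⟩⟩
  · obtain ⟨l', r', h1, h2, h3, h4, h5⟩ := sub_cross_aux (f := fun z => - f z) hlr hf.neg
      (neg_lt_neg hlh) (neg_le_neg h.1) (neg_le_neg h.2)
    refine ⟨l', r', h1, h2, fun z hz => ?_, Or.inr ⟨neg_injective h4, neg_injective h5⟩⟩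
    have := h3 z hz
    exact ⟨neg_le_neg_iff.mp this.2, neg_le_neg_iff.mp this.1⟩

/-- lower end of the coding interval -/
noncomputable def jlo (s : Bool) : ℝ := if s then 62050 else 59500

/-- upper end of the coding interval -/
noncomputable def jhi (s : Bool) : ℝ := if s then 63600 else 61900

lemma jlo_lt_jhi (s : Bool) : jlo s < jhi s := by
  cases s <;> simp [jlo, jhi] <;> norm_num

lemma jlo_ge (s : Bool) : 59500 ≤ jlo s := by
  cases s <;> simp [jlo] ; norm_num

lemma jhi_le (s : Bool) : jhi s ≤ 63600 := by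
  cases s <;> simp [jhi] ; norm_num

/-- the orbit is in the right place at time `8 j` -/
def good (a g d c e : ℝ) (s : ℕ → Bool) (j : ℕ) (z : ℝ) : Prop :=
  |(st a g d c e z (8 * j)).1| ≤ 2 ∧ |(st a g d c e z (8 * j)).2.2 - 40000| ≤ 4 ∧
    jlo (s j) ≤ (st a g d c e z (8 * j)).2.1 ∧ (st a g d c e z (8 * j)).2.1 ≤ jhi (s j)

lemma isClosed_good (a g d c e : ℝ) (s : ℕ → Bool) (j : ℕ) :
    IsClosed {z | good a g d c e s j z} := by
  have h := continuous_st a g d c e (8 * j)
  have h1 : Continuous fun z => (st a g d c e z (8 * j)).1 := h.fst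
  have h2 : Continuous fun z => (st a g d c e z (8 * j)).2.1 := h.snd.fst
  have h3 : Continuous fun z => (st a g d c e z (8 * j)).2.2 := h.snd.snd
  refine IsClosed.inter (isClosed_le h1.abs continuous_const) (IsClosed.inter ?_ (IsClosed.inter
    (isClosed_le continuous_const h2) (isClosed_le h2 continuous_const)))
  exact isClosed_le (h3.sub continuous_const).abs continuous_const

/-- one return: the next state is near the section again and the free coordinate is stretched
over both coding intervals. -/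
lemma block {a g d c e : ℝ} (hA : Adm a g d c e) (s : ℕ → Bool) (j : ℕ) (z : ℝ)
    (h : good a g d c e s j z) :
    |(st a g d c e z (8 * (j + 1))).1| ≤ 2 ∧
    |(st a g d c e z (8 * (j + 1))).2.2 - 40000| ≤ 4 ∧
    ((st a g d c e z (8 * j)).2.1 = jlo (s j) → s j = false →
        (st a g d c e z (8 * (j + 1))).2.1 ≤ 59500) ∧
    ((st a g d c e z (8 * j)).2.1 = jhi (s j) → s j = false →
        63600 ≤ (st a g d c e z (8 * (j + 1))).2.1) ∧
    ((st a g d c e z (8 * j)).2.1 = jlo (s j) → s j = true →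
        63600 ≤ (st a g d c e z (8 * (j + 1))).2.1) ∧
    ((st a g d c e z (8 * j)).2.1 = jhi (s j) → s j = true →
        (st a g d c e z (8 * (j + 1))).2.1 ≤ 59500) := by
  obtain ⟨hU, hW, hV1, hV2⟩ := h
  have e8 : 8 * (j + 1) = 8 * j + 8 := by ring
  cases hs : s j with
  | false =>
    rw [hs] at hV1 hV2
    simp only [jlo, jhi, Bool.false_eq_true, if_false] at hV1 hV2
    obtain ⟨b1, b2, b3⟩ := block_B (X1 := (st a g d c e z (8 * j + 1)).1)
      (X2 := (st a g d c e z (8 * j + 2)).1) (X3 := (st a g d c e z (8 * j + 3)).1)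
      (X4 := (st a g d c e z (8 * j + 4)).1) (X5 := (st a g d c e z (8 * j + 5)).1)
      (X6 := (st a g d c e z (8 * j + 6)).1) (X7 := (st a g d c e z (8 * j + 7)).1)
      (X8 := (st a g d c e z (8 * j + 8)).1) hA hU hW hV1 hV2 rfl rfl rfl rfl rfl rfl rfl rfl
    rw [abs_le] at b3
    rw [e8]
    refine ⟨b1, b2, ?_, ?_, ?_, ?_⟩
    · intro h1 _
      simp only [jlo, Bool.false_eq_true, if_false] at h1
      change (st a g d c e z (8 * j + 7)).1 ≤ 59500
      linarith
    · intro h1 _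
      simp only [jhi, Bool.false_eq_true, if_false] at h1
      change 63600 ≤ (st a g d c e z (8 * j + 7)).1
      linarith
    · intro _ h; exact absurd h (by simp)
    · intro _ h; exact absurd h (by simp)
  | true =>
    rw [hs] at hV1 hV2
    simp only [jlo, jhi, if_true] at hV1 hV2
    obtain ⟨b1, b2, b3⟩ := block_A (X1 := (st a g d c e z (8 * j + 1)).1)
      (X2 := (st a g d c e z (8 * j + 2)).1) (X3 := (st a g d c e z (8 * j + 3)).1)
      (X4 := (st a g d c e z (8 * j + 4)).1) (X5 := (st a g d c e z (8 * j + 5)).1)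
      (X6 := (st a g d c e z (8 * j + 6)).1) (X7 := (st a g d c e z (8 * j + 7)).1)
      (X8 := (st a g d c e z (8 * j + 8)).1) hA hU hW hV1 hV2 rfl rfl rfl rfl rfl rfl rfl rfl
    rw [abs_le] at b3
    rw [e8]
    refine ⟨b1, b2, ?_, ?_, ?_, ?_⟩
    · intro _ h; exact absurd h (by simp)
    · intro _ h; exact absurd h (by simp)
    · intro h1 _
      simp only [jlo, if_true] at h1
      change 63600 ≤ (st a g d c e z (8 * j + 7)).1
      linarith
    · intro h1 _
      simp only [jhi, if_true] at h1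
      change (st a g d c e z (8 * j + 7)).1 ≤ 59500
      linarith

/-- the inductive construction of the nested intervals -/
lemma exists_interval {a g d c e : ℝ} (hA : Adm a g d c e) (s : ℕ → Bool) (k : ℕ) :
    ∃ l r : ℝ, l ≤ r ∧ Icc l r ⊆ Icc 59500 63600 ∧
      (∀ z ∈ Icc l r, ∀ j ≤ k, good a g d c e s j z) ∧
      (((st a g d c e l (8 * k)).2.1 = jlo (s k) ∧ (st a g d c e r (8 * k)).2.1 = jhi (s k)) ∨
       ((st a g d c e l (8 * k)).2.1 = jhi (s k) ∧ (st a g d c e r (8 * k)).2.1 = jlo (s k))) := by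
  induction k with
  | zero =>
    refine ⟨jlo (s 0), jhi (s 0), (jlo_lt_jhi _).le,
      Icc_subset_Icc (jlo_ge _) (jhi_le _), ?_, Or.inl ⟨rfl, rfl⟩⟩
    intro z hz j hj
    have : j = 0 := Nat.le_zero.mp hj
    subst this
    refine ⟨?_, ?_, hz.1, hz.2⟩
    · change |(0 : ℝ)| ≤ 2
      simp
    · change |(40000 : ℝ) - 40000| ≤ 4
      simp
  | succ k ih =>
    obtain ⟨l, r, hlr, hsub, hgood, hends⟩ := ih
    have hcont : Continuous fun z => (st a g d c e z (8 * (k + 1))).2.1 :=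
      (continuous_st a g d c e (8 * (k + 1))).snd.fst
    have hl : l ∈ Icc l r := ⟨le_rfl, hlr⟩
    have hr : r ∈ Icc l r := ⟨hlr, le_rfl⟩
    have bl := block hA s k l (hgood l hl k le_rfl)
    have br := block hA s k r (hgood r hr k le_rfl)
    have key : ((st a g d c e l (8 * (k + 1))).2.1 ≤ 59500 ∧
          63600 ≤ (st a g d c e r (8 * (k + 1))).2.1) ∨
        (63600 ≤ (st a g d c e l (8 * (k + 1))).2.1 ∧
          (st a g d c e r (8 * (k + 1))).2.1 ≤ 59500) := by
      rcases hends with ⟨h1, h2⟩ | ⟨h1, h2⟩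
      · cases hs : s k with
        | false => exact Or.inl ⟨bl.2.2.1 h1 hs, br.2.2.2.1 h2 hs⟩
        | true => exact Or.inr ⟨bl.2.2.2.2.1 h1 hs, br.2.2.2.2.2 h2 hs⟩
      · cases hs : s k with
        | false => exact Or.inr ⟨bl.2.2.2.1 h1 hs, br.2.2.1 h2 hs⟩
        | true => exact Or.inl ⟨bl.2.2.2.2.2 h1 hs, br.2.2.2.2.1 h2 hs⟩
    have key2 : ((st a g d c e l (8 * (k + 1))).2.1 ≤ jlo (s (k + 1)) ∧
          jhi (s (k + 1)) ≤ (st a g d c e r (8 * (k + 1))).2.1) ∨
        (jhi (s (k + 1)) ≤ (st a g d c e l (8 * (k + 1))).2.1 ∧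
          (st a g d c e r (8 * (k + 1))).2.1 ≤ jlo (s (k + 1))) := by
      have := jlo_ge (s (k + 1))
      have := jhi_le (s (k + 1))
      rcases key with h | h
      · exact Or.inl ⟨by linarith [h.1], by linarith [h.2]⟩
      · exact Or.inr ⟨by linarith [h.1], by linarith [h.2]⟩
    obtain ⟨l', r', h1, h2, h3, h4⟩ := sub_cross hlr hcont (jlo_lt_jhi (s (k + 1))) key2
    refine ⟨l', r', h1, h2.trans hsub, ?_, h4⟩
    intro z hz j hj
    rcases Nat.lt_or_ge j (k + 1) with hjk | hjk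
    · exact hgood z (h2 hz) j (Nat.lt_succ_iff.mp hjk)
    · have : j = k + 1 := le_antisymm hj hjk
      subst this
      have b := block hA s k z (hgood z (h2 hz) k le_rfl)
      exact ⟨b.1, b.2.1, (h3 z hz).1, (h3 z hz).2⟩

/-- every itinerary is realised -/
lemma exists_orbit {a g d c e : ℝ} (hA : Adm a g d c e) (s : ℕ → Bool) :
    ∃ z : ℝ, ∀ j, good a g d c e s j z := by
  let K : ℕ → Set ℝ := fun k => Icc 59500 63600 ∩ ⋂ j ∈ Iic k, {z | good a g d c e s j z}
  have hclosed : ∀ k, IsClosed (⋂ j ∈ Iic k, {z | good a g d c e s j z}) := fun k =>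
    isClosed_biInter fun j _ => isClosed_good a g d c e s j
  have hne : (⋂ k, K k).Nonempty := by
    refine IsCompact.nonempty_iInter_of_sequence_nonempty_isCompact_isClosed K ?_ ?_ ?_ ?_
    · intro k
      refine inter_subset_inter_right _ ?_
      intro z hz
      simp only [mem_iInter, mem_Iic] at hz ⊢
      exact fun j hj => hz j (hj.trans (Nat.le_succ k))
    · intro k
      obtain ⟨l, r, hlr, hsub, hgood, -⟩ := exists_interval hA s k
      refine ⟨l, hsub ⟨le_rfl, hlr⟩, ?_⟩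
      simp only [mem_iInter, mem_Iic]
      exact fun j hj => hgood l ⟨le_rfl, hlr⟩ j hj
    · exact isCompact_Icc.inter_right (hclosed 0)
    · exact fun k => isClosed_Icc.inter (hclosed k)
  obtain ⟨z, hz⟩ := hne
  refine ⟨z, fun j => ?_⟩
  have h1 := mem_iInter.mp hz j
  have h2 := h1.2
  simp only [mem_iInter, mem_Iic] at h2
  exact h2 j le_rfl

/-- coding sequence: perfect squares -/
noncomputable def sq (j : ℕ) : Bool := by
  classical exact decide (IsSquare j)

lemma sq_true {j : ℕ} (h : IsSquare j) : sq j = true := by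
  simp [sq, h]

lemma sq_false {j : ℕ} (h : ¬ IsSquare j) : sq j = false := by
  simp [sq, h]

lemma not_square_aux (k m : ℕ) (hk : 0 < k) (hm : 0 < m) :
    ¬ IsSquare (k * (k * (m * m) + 1)) := by
  rintro ⟨r, hr⟩
  have h1 : (k * m) * (k * m) < r * r := by nlinarith
  have h2 : r * r < (k * m + 1) * (k * m + 1) := by nlinarith
  have h3 : k * m < r := by
    by_contra hcon
    push Not at hcon
    exact absurd (Nat.mul_le_mul hcon hcon) (not_le.mpr h1)
  have h4 : r < k * m + 1 := by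
    by_contra hcon
    push Not at hcon
    exact absurd (Nat.mul_le_mul hcon hcon) (not_le.mpr h2)
  omega

/-- **Main theorem.**  For all parameters in an explicit open box of the positive orthant the
recurrence has a positive solution that converges to no periodic sequence at all (in particular
neither to the equilibrium nor to a periodic solution). -/
theorem result (α γ δ C D : ℝ)
    (hα : α ∈ Ioo (Real.exp (-1)) (Real.exp 1))
    (hγ : γ ∈ Ioo (Real.exp (-1)) (Real.exp 1))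
    (hδ : δ ∈ Ioo (Real.exp 29999) (Real.exp 30001))
    (hC : C ∈ Ioo (Real.exp (-40001)) (Real.exp (-39999)))
    (hD : D ∈ Ioo (Real.exp (-50001)) (Real.exp (-49999))) :
    ∃ x : ℕ → ℝ, 0 < x 0 ∧ 0 < x 1 ∧ 0 < x 2 ∧
      (∀ n, x (n + 3) = (α + x (n + 2) + γ * x (n + 1) + δ * x n) /
        (x (n + 2) + C * x (n + 1) + D * x n)) ∧
      ∀ (p : ℕ → ℝ) (k : ℕ), 0 < k → (∀ n, p (n + k) = p n) →
        ¬ Tendsto (fun n => x n - p n) atTop (𝓝 0) := by
  have hα0 : 0 < α := (Real.exp_pos _).trans hα.1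
  have hγ0 : 0 < γ := (Real.exp_pos _).trans hγ.1
  have hδ0 : 0 < δ := (Real.exp_pos _).trans hδ.1
  have hC0 : 0 < C := (Real.exp_pos _).trans hC.1
  have hD0 : 0 < D := (Real.exp_pos _).trans hD.1
  have hA : Adm (Real.log α) (Real.log γ) (Real.log δ) (Real.log C) (Real.log D) := by
    refine ⟨abs_lt.mpr ⟨?_, ?_⟩, abs_lt.mpr ⟨?_, ?_⟩, abs_lt.mpr ⟨?_, ?_⟩, abs_lt.mpr ⟨?_, ?_⟩,
      abs_lt.mpr ⟨?_, ?_⟩⟩
    · exact (Real.lt_log_iff_exp_lt hα0).mpr hα.1
    · exact (Real.log_lt_iff_lt_exp hα0).mpr hα.2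
    · exact (Real.lt_log_iff_exp_lt hγ0).mpr hγ.1
    · exact (Real.log_lt_iff_lt_exp hγ0).mpr hγ.2
    · linarith [(Real.lt_log_iff_exp_lt hδ0).mpr hδ.1]
    · linarith [(Real.log_lt_iff_lt_exp hδ0).mpr hδ.2]
    · linarith [(Real.lt_log_iff_exp_lt hC0).mpr hC.1]
    · linarith [(Real.log_lt_iff_lt_exp hC0).mpr hC.2]
    · linarith [(Real.lt_log_iff_exp_lt hD0).mpr hD.1]
    · linarith [(Real.log_lt_iff_lt_exp hD0).mpr hD.2]
  obtain ⟨z, hz⟩ := exists_orbit hA sq
  set S := st (Real.log α) (Real.log γ) (Real.log δ) (Real.log C) (Real.log D) z with hS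
  refine ⟨fun n => Real.exp (S n).2.2, Real.exp_pos _, Real.exp_pos _, Real.exp_pos _, ?_, ?_⟩
  · intro n
    have e1 : (S (n + 1)).2.2 = (S n).2.1 := rfl
    have e2 : (S (n + 2)).2.2 = (S n).1 := rfl
    have e3 : (S (n + 3)).2.2 = G (Real.log α) (Real.log γ) (Real.log δ) (Real.log C)
        (Real.log D) (S n).1 (S n).2.1 (S n).2.2 := rfl
    simp only [e1, e2, e3]
    unfold G
    rw [Real.exp_sub, Real.exp_log (num_pos _ _ _ _ _ _), Real.exp_log (den_pos _ _ _ _ _),
      Real.exp_add, Real.exp_add, Real.exp_add, Real.exp_add, Real.exp_log hα0, Real.exp_log hγ0,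
      Real.exp_log hδ0, Real.exp_log hC0, Real.exp_log hD0]
  · intro p k hk hp hlim
    have hper : Function.Periodic p k := hp
    -- value of the periodic sequence along the subsequence
    have hpj : ∀ i : ℕ, p (8 * (k * i) + 1) = p 1 := by
      intro i
      have h := hper.nat_mul (8 * i)
      have h2 := h 1
      have e : 1 + (8 * i : ℕ) * k = 8 * (k * i) + 1 := by ring
      rw [← e]
      exact_mod_cast h2
    have hx : ∀ j : ℕ, Real.exp (jlo (sq j)) ≤ Real.exp (S (8 * j + 1)).2.2 ∧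
        Real.exp (S (8 * j + 1)).2.2 ≤ Real.exp (jhi (sq j)) := by
      intro j
      have e1 : (S (8 * j + 1)).2.2 = (S (8 * j)).2.1 := rfl
      rw [e1]
      exact ⟨Real.exp_le_exp.mpr (hz j).2.2.1, Real.exp_le_exp.mpr (hz j).2.2.2⟩
    -- along any sequence `i m → ∞` the solution tends to `p 1`
    have hsub : ∀ i : ℕ → ℕ, Tendsto i atTop atTop →
        Tendsto (fun m => Real.exp (S (8 * (k * i m) + 1)).2.2) atTop (𝓝 (p 1)) := by
      intro i hi
      have h1 : Tendsto (fun m => 8 * (k * i m) + 1) atTop atTop := by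
        refine tendsto_atTop_mono (fun m => ?_) hi
        nlinarith [Nat.zero_le (i m)]
      have h2 := hlim.comp h1
      have h3 : Tendsto (fun m => (Real.exp (S (8 * (k * i m) + 1)).2.2 - p (8 * (k * i m) + 1))
          + p 1) atTop (𝓝 (0 + p 1)) := h2.add_const _
      rw [zero_add] at h3
      refine h3.congr fun m => ?_
      rw [hpj]; ring
    have hup : Real.exp 62050 ≤ p 1 := by
      refine ge_of_tendsto (hsub (fun m => k * (m * m)) ?_) ?_
      · refine tendsto_atTop_mono (fun m => ?_) tendsto_id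
        simp only [id]
        nlinarith [Nat.zero_le m, Nat.le_mul_self m, Nat.zero_le (m * m)]
      · refine Eventually.of_forall fun m => ?_
        have h := (hx (k * (k * (m * m)))).1
        have hs : IsSquare (k * (k * (m * m))) := ⟨k * m, by ring⟩
        rw [sq_true hs] at h
        simpa [jlo] using h
    have hdown : p 1 ≤ Real.exp 61900 := by
      refine le_of_tendsto (hsub (fun m => k * ((m + 1) * (m + 1)) + 1) ?_) ?_
      · refine tendsto_atTop_mono (fun m => ?_) tendsto_id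
        simp only [id]
        nlinarith [Nat.zero_le m, Nat.le_mul_self m, Nat.zero_le (m * m)]
      · refine Eventually.of_forall fun m => ?_
        have h := (hx (k * (k * ((m + 1) * (m + 1)) + 1))).2
        rw [sq_false (not_square_aux k (m + 1) hk (Nat.succ_pos m))] at h
        simpa [jhi] using h
    have : Real.exp 61900 < Real.exp 62050 := Real.exp_lt_exp.mpr (by norm_num)
    linarith

end Pool.Agent.Results.MP_28d764_an.OpenSetNonPeriodic
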